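import Pool.Agent.P8H9.UO.StmG

/-! Project UO (helper9), package ELE: elementary matrices generate a congruence subgroup. -/

set_option autoImplicit false

namespace Pool.Agent.P8H22.UO

open Pool.Agent.Q19.SU.Gen Pool.Agent.P8H9.UO

section
variable {G V : Type} [Group G] [AddCommGroup V] {ρ : G → V →+ V}

theorem RS.mul (hmul : ∀ σ τ v, ρ (σ * τ) v = ρ σ (ρ τ v)) {m : ℕ} {P Q : V}
    {a b c d a' b' c' d' : ℤ} (h : RS ρ m P Q a b c d) (h' : RS ρ m P Q a' b' c' d') :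
    RS ρ m P Q (a * a' + b * c') (a * b' + b * d') (c * a' + d * c') (c * b' + d * d') := by
  obtain ⟨σ, hσ, h1, h2, h3⟩ := h
  obtain ⟨σ', hσ', h1', h2', h3'⟩ := h'
  refine ⟨σ * σ', mul_mem hσ hσ', ?_, ?_, ?_⟩
  · rw [hmul, h1', map_add, map_zsmul, map_zsmul, h1, h2]
    module
  · rw [hmul, h2', map_add, map_zsmul, map_zsmul, h1, h2]
    module
  · intro R hR
    rw [hmul, h3' R hR, h3 R hR]

theorem RS.congr {m n : ℕ} {P Q : V} (hP : (n : ℤ) • P = 0) (hQ : (n : ℤ) • Q = 0)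
    {a b c d a' b' c' d' : ℤ} (h : RS ρ m P Q a b c d) (ha : (n : ℤ) ∣ a - a')
    (hb : (n : ℤ) ∣ b - b') (hc : (n : ℤ) ∣ c - c') (hd : (n : ℤ) ∣ d - d') :
    RS ρ m P Q a' b' c' d' := by
  obtain ⟨σ, hσ, h1, h2, h3⟩ := h
  refine ⟨σ, hσ, ?_, ?_, h3⟩
  · rw [h1, smul_congr hP ha, smul_congr hQ hc]
  · rw [h2, smul_congr hP hb, smul_congr hQ hd]

/-- all elementary matrices imply all matrices of determinant one, for prime powers -/
theorem allS_of (hmul : ∀ σ τ v, ρ (σ * τ) v = ρ σ (ρ τ v)) {p k m : ℕ} (hp : p.Prime)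
    (hk : 1 ≤ k) {P Q : V} (hP : ((p ^ k : ℕ) : ℤ) • P = 0) (hQ : ((p ^ k : ℕ) : ℤ) • Q = 0)
    (h1 : ∀ x : ℤ, RS ρ m P Q 1 x 0 1) (h2 : ∀ x : ℤ, RS ρ m P Q 1 0 x 1) :
    ∀ a b c d : ℤ, ((p ^ k : ℕ) : ℤ) ∣ a * d - b * c - 1 → RS ρ m P Q a b c d := by
  have hpp : Prime (p : ℤ) := Nat.prime_iff_prime_int.1 hp
  have hpk : (p : ℤ) ∣ ((p ^ k : ℕ) : ℤ) := by
    push_cast
    exact dvd_pow_self _ (by omega)
  -- the case of a unit `c`
  have unit : ∀ a b c d : ℤ, ((p ^ k : ℕ) : ℤ) ∣ a * d - b * c - 1 → ¬ (p : ℤ) ∣ c →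
      RS ρ m P Q a b c d := by
    intro a b c d hdet hc
    have hcop : IsCoprime c ((p ^ k : ℕ) : ℤ) := by
      push_cast
      exact ((hpp.coprime_iff_not_dvd.2 hc).symm).pow_right
    obtain ⟨u, v, huv⟩ := hcop
    have e := RS.mul hmul (RS.mul hmul (h1 ((a - 1) * u)) (h2 c)) (h1 ((d - 1) * u))
    have hu : ((p ^ k : ℕ) : ℤ) ∣ u * c - 1 := ⟨-v, by linear_combination huv⟩
    refine RS.congr hP hQ e ?_ ?_ ?_ ?_
    · have : (1 * 1 + (a - 1) * u * c) * 1 + (1 * 0 + (a - 1) * u * 1) * 0 - a =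
          (a - 1) * (u * c - 1) := by ring
      rw [this]; exact hu.mul_left _
    · have : (1 * 1 + (a - 1) * u * c) * ((d - 1) * u) + (1 * 0 + (a - 1) * u * 1) * 1 - b =
          u * (a * d - b * c - 1) + (u * c - 1) * (b + (a - 1) * (d - 1) * u) := by ring
      rw [this]; exact (hdet.mul_left _).add (hu.mul_right _)
    · have : (0 * 1 + 1 * c) * 1 + (0 * 0 + 1 * 1) * 0 - c = 0 := by ring
      rw [this]; exact dvd_zero _
    · have : (0 * 1 + 1 * c) * ((d - 1) * u) + (0 * 0 + 1 * 1) * 1 - d =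
          (d - 1) * (u * c - 1) := by ring
      rw [this]; exact hu.mul_left _
  intro a b c d hdet
  by_cases hc : (p : ℤ) ∣ c
  · have ha : ¬ (p : ℤ) ∣ c + a := by
      intro h
      have ha : (p : ℤ) ∣ a := (dvd_add_right hc).1 h
      have h3 : (p : ℤ) ∣ 1 := by
        have h4 := hpk.trans hdet
        have e1 : (1 : ℤ) = a * d - b * c - (a * d - b * c - 1) := by ring
        rw [e1]
        exact ((ha.mul_right d).sub (hc.mul_left b)).sub h4
      exact hpp.not_isUnit (isUnit_of_dvd_one h3)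
    have e1 := unit a b (c + a) (d + b) (by
      have : a * (d + b) - b * (c + a) - 1 = a * d - b * c - 1 := by ring
      rw [this]; exact hdet) ha
    have e2 := RS.mul hmul (h2 (-1)) e1
    refine RS.congr hP hQ e2 ?_ ?_ ?_ ?_
    · have : 1 * a + 0 * (c + a) - a = 0 := by ring
      rw [this]; exact dvd_zero _
    · have : 1 * b + 0 * (d + b) - b = 0 := by ring
      rw [this]; exact dvd_zero _
    · have : -1 * a + 1 * (c + a) - c = 0 := by ring
      rw [this]; exact dvd_zero _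
    · have : -1 * b + 1 * (d + b) - d = 0 := by ring
      rw [this]; exact dvd_zero _
  · exact unit a b c d hdet hc

end

theorem ele : S_ELE := by
  intro G V _ _ ρ hρ p k M m P Q hp hB h1 h2 a b c d hdet ha hb hc hd
  have hpp : Prime (p : ℤ) := Nat.prime_iff_prime_int.1 hp
  rcases Nat.eq_zero_or_pos k with hk | hk
  · subst hk
    have hP := hB.hP
    have hQ := hB.hQ
    simp only [pow_zero, Nat.cast_one, one_smul] at hP hQ
    subst hP; subst hQ
    exact ⟨1, one_mem _, by simp, by simp, fun R _ => hρ.one R⟩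
  rcases Nat.eq_zero_or_pos M with hM | hM
  · subst hM
    exact allS_of hρ.mul hp hk hB.hP hB.hQ (fun x => h1 x (by simp)) (fun x => h2 x (by simp))
      a b c d hdet
  push_cast at ha hb hc hd hdet
  have h2M : (p : ℤ) ^ (2 * M) = (p : ℤ) ^ M * (p : ℤ) ^ M := by rw [two_mul, pow_add]
  -- `a - 1 = x y`
  obtain ⟨y', hy'⟩ := ha
  obtain ⟨b', hb'⟩ := hb
  obtain ⟨c', hc'⟩ := hc
  set x : ℤ := (p : ℤ) ^ M with hx
  set y : ℤ := x * y' with hy
  obtain rfl : a = 1 + x * y := by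
    have : a = 1 + (p : ℤ) ^ (2 * M) * y' := by linear_combination hy'
    rw [this, h2M, hy]; ring
  have hpa : ¬ (p : ℤ) ∣ 1 + x * y := by
    intro h
    have hpx : (p : ℤ) ∣ x := dvd_pow_self _ (by omega)
    have : (p : ℤ) ∣ 1 := (dvd_add_left (hpx.mul_right y)).1 h
    exact hpp.not_isUnit (isUnit_of_dvd_one this)
  have hcop : IsCoprime (1 + x * y) ((p : ℤ) ^ k) :=
    ((hpp.coprime_iff_not_dvd.2 hpa).symm).pow_right
  obtain ⟨w, v, hwv⟩ := hcop
  set t : ℤ := (c - y) * w with ht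
  set z : ℤ := (b - x) * w with hz
  have hxt : x ∣ t := by
    rw [ht, hy, hc', h2M, mul_assoc, ← mul_sub]
    exact (dvd_mul_right _ _).mul_right _
  have hxz : x ∣ z := by
    have : b - x = x * (x * b' - 1) := by rw [hb', h2M]; ring
    rw [hz, this]
    exact (dvd_mul_right _ _).mul_right _
  have hxy : x ∣ y := dvd_mul_right _ _
  have e := RS.mul hρ.mul (RS.mul hρ.mul (RS.mul hρ.mul (h2 t hxt) (h1 x dvd_rfl)) (h2 y hxy))
    (h1 z hxz)
  have hε : (p : ℤ) ^ k ∣ (1 + x * y) * w - 1 := ⟨-v, by linear_combination hwv⟩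
  have hcast : ((p ^ k : ℕ) : ℤ) = (p : ℤ) ^ k := by push_cast; rfl
  refine RS.congr hB.hP hB.hQ e ?_ ?_ ?_ ?_
  · have : (((1 * 1 + 0 * 0) * 1 + (1 * x + 0 * 1) * y) * 1 +
        ((1 * 1 + 0 * 0) * 0 + (1 * x + 0 * 1) * 1) * 0) - (1 + x * y) = 0 := by ring
    rw [this]; exact dvd_zero _
  · rw [hcast]
    have : (((1 * 1 + 0 * 0) * 1 + (1 * x + 0 * 1) * y) * z +
        ((1 * 1 + 0 * 0) * 0 + (1 * x + 0 * 1) * 1) * 1) - b =
        (b - x) * ((1 + x * y) * w - 1) := by rw [hz]; ring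
    rw [this]; exact hε.mul_left _
  · rw [hcast]
    have : (((t * 1 + 1 * 0) * 1 + (t * x + 1 * 1) * y) * 1 +
        ((t * 1 + 1 * 0) * 0 + (t * x + 1 * 1) * 1) * 0) - c =
        (c - y) * ((1 + x * y) * w - 1) := by rw [ht]; ring
    rw [this]; exact hε.mul_left _
  · rw [hcast]
    set d' : ℤ := (((t * 1 + 1 * 0) * 1 + (t * x + 1 * 1) * y) * z +
        ((t * 1 + 1 * 0) * 0 + (t * x + 1 * 1) * 1) * 1) with hd'
    have : d' - d = -w * ((1 + x * y) * d - b * c - 1) + ((1 + x * y) * w - 1) *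
        (w * (b * (c - y) + c * (b - x) + (b - x) * (c - y) * ((1 + x * y) * w - 1)) - (d' - d)) := by
      rw [hd', hz, ht]; ring
    rw [this]
    exact (hdet.mul_left _).add (hε.mul_right _)

end Pool.Agent.P8H22.UO
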